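import Mathlib
import Pool.Agent.helper76.T3.FinD
import Pool.Agent.helper76.T3.Rel

set_option autoImplicit false

open NumberField WeierstrassCurve

namespace Pool.Agent.Results.MP_32c55d_nt.SilentThreeTowers

/-- The prime `P` of `L` is ramified over `k`: it occurs at least twice in the factorization of the
ideal generated by the prime of `k` below `P`. -/
def Ramified (k : Type) {L : Type} [Field k] [Field L] [Algebra k L] (P : Ideal (𝓞 L)) : Prop :=
  (P.comap (algebraMap (𝓞 k) (𝓞 L))).map (algebraMap (𝓞 k) (𝓞 L)) ≤ P ^ 2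

/-- The extension `L / k` has `3`-power degree, and each nonzero prime `P` of `L` ramified over `k`
does not contain `3`, and contains `2` or is such that `t` is not a square modulo `P`. -/
def Silent {k : Type} [Field k] (t : 𝓞 k) (L : Type) [Field L] [Algebra k L] : Prop :=
  (∃ m, Module.finrank k L = 3 ^ m) ∧
  ∀ P : Ideal (𝓞 L), P.IsPrime → P ≠ ⊥ → Ramified k P →
    (3 : 𝓞 L) ∉ P ∧ ((2 : 𝓞 L) ∈ P ∨ ∀ x : 𝓞 L, x ^ 2 - algebraMap (𝓞 k) (𝓞 L) t ∉ P)

/-- The `L`-series of `W` (Mathlib's) continues analytically from `Re s > 3 / 2` to a connected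
open set containing `1`, where it vanishes to order exactly `r`. -/
def OrderAtOne {K : Type} [Field K] [NumberField K] (W : WeierstrassCurve K) (r : ℕ) : Prop :=
  ∃ (U : Set ℂ) (F : ℂ → ℂ), IsOpen U ∧ IsConnected U ∧ {z : ℂ | (3 / 2 : ℝ) < z.re} ⊆ U ∧
    (1 : ℂ) ∈ U ∧ AnalyticOnNhd ℂ F U ∧ (∀ z : ℂ, (3 / 2 : ℝ) < z.re → F z = W.LSeries z) ∧
    (∀ i < r, iteratedDeriv i F 1 = 0) ∧ iteratedDeriv r F 1 ≠ 0

open scoped Classical in
/-- Let `k = ℚ(√-3)` and `t = √-3`.

* Every finite `3`-group is the Galois group of `L / K` for a silent Galois extension `L / k` and a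
  field `k ⊆ K ⊆ L`, where all ramified primes of `L` have norm beyond any given bound and do not
  contain `2`.
* For every field `K` between `k` and a silent Galois extension `L` and every Weierstrass equation
  `W` over `K` of the curve `y ^ 2 = x ^ 3 + t ^ 3`, the rank conjecture holds for `W` over `K`:
  `W(K)` is finite (of order prime to `3`), of rank `0`, and the `L`-series continues to `1` and
  does not vanish there. -/
theorem result (k : Type) [Field k] [NumberField k] (hk : Module.finrank ℚ k = 2) (t : 𝓞 k)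
    (ht : t ^ 2 = -3) :
    (∀ (N n : ℕ) (G : Type) [Group G], Nat.card G = 3 ^ n →
      ∃ (L : Type) (_ : Field L) (_ : NumberField L) (_ : Algebra k L), IsGalois k L ∧
        Silent t L ∧
        (∀ P : Ideal (𝓞 L), P.IsPrime → P ≠ ⊥ → Ramified k P →
          N < Ideal.absNorm P ∧ (2 : 𝓞 L) ∉ P) ∧
        ∃ K : IntermediateField k L, Nonempty ((L ≃ₐ[K] L) ≃* G)) ∧
    ∀ (L : Type) [Field L] [NumberField L] [Algebra k L] [IsGalois k L], Silent t L →
      ∀ (K : Type) [Field K] [NumberField K] [Algebra k K] [Algebra K L] [IsScalarTower k K L]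
        (W : WeierstrassCurve K),
        (∃ C : VariableChange K, C • W = ⟨0, 0, 0, 0, (algebraMap k K (t : k)) ^ 3⟩) →
        W.IsElliptic ∧ Finite W.toAffine.Point ∧ ¬ 3 ∣ Nat.card W.toAffine.Point ∧
        Module.finrank ℤ W.toAffine.Point = 0 ∧ OrderAtOne W 0 := by
  refine ⟨fun N n G _ hG => ?_, ?_⟩
  · obtain ⟨L, i1, i2, i3, i4, hL, hP, hK⟩ := Pool.Agent.helper76.T3.exists_k ht hk N n G hG
    refine ⟨L, i1, i2, i3, i4, ⟨hL, fun P h1 h2 h3 => ?_⟩, fun P h1 h2 h3 => ?_, hK⟩
    · obtain ⟨-, -, h4, h5⟩ := hP P h1 h2 h3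
      exact ⟨h4, Or.inr h5⟩
    · obtain ⟨h4, h5, -, -⟩ := hP P h1 h2 h3
      exact ⟨h4, h5⟩
  · intro L _ _ _ _ hL K _ _ _ _ _ W hW
    obtain ⟨hΔ, hfin, h3, U, F, hU1, hU2, hU3, hU4, hF, hFL, hF1⟩ :=
      Pool.Agent.helper76.T3.all_k Pool.Agent.helper76.T3.cubHyp ht hk (K := K) (L := L) hL.1
        hL.2 W hW
    have hrank : Module.finrank ℤ W.toAffine.Point = 0 := by
      refine Module.IsTorsion.finrank_eq_zero fun {P} => ?_
      obtain ⟨k, hk, hkP⟩ := isOfFinAddOrder_iff_nsmul_eq_zero.1 (isOfFinAddOrder_of_finite P)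
      refine ⟨⟨(k : ℤ), mem_nonZeroDivisors_of_ne_zero (by exact_mod_cast hk.ne')⟩, ?_⟩
      change (k : ℤ) • P = 0
      rw [natCast_zsmul]
      exact hkP
    refine ⟨?_, hfin, h3, hrank, U, F, hU1, hU2, hU3, hU4, hF, hFL, ?_, ?_⟩
    · rw [WeierstrassCurve.isElliptic_iff, isUnit_iff_ne_zero]
      exact hΔ
    · intro r hr
      exact absurd hr (Nat.not_lt_zero r)
    · rw [iteratedDeriv_zero]
      exact hF1

end Pool.Agent.Results.MP_32c55d_nt.SilentThreeTowers
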