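import Mathlib
import Pool.Agent.helper76.Tow.Fi3
import Pool.Agent.helper5.Tow.Ex6

set_option autoImplicit false

open scoped Classical
open NumberField WeierstrassCurve

namespace Pool.Agent.Results.MP_32c55d_nt.SilentTowerCurves

/-- Call a Galois number field `L` silent if its degree is a power of two and each prime `l`
ramified in `L` is odd, and is `3` or such that `2` is not a cube modulo `l`.

* Every finite `2`-group is the Galois group of `L / K` for a silent field `L`, with all ramified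
  primes beyond any given bound.
* For every number field `K` contained in a silent field `L` and every Weierstrass curve `W` over
  `K` which becomes isomorphic over `L` to `y ^ 2 + y = x ^ 3`, the rank conjecture holds, with
  analytic continuation, nonvanishing at `1` and a finite group of points. -/
theorem result :
    (∀ (N n : ℕ) (G : Type) [Group G], Nat.card G = 2 ^ n →
      ∃ (L : Type) (_ : Field L) (_ : NumberField L), IsGalois ℚ L ∧
        (∃ m, Module.finrank ℚ L = 2 ^ m) ∧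
        (∀ l : ℕ, l.Prime → (l : ℤ) ∣ discr L → N < l ∧ ¬ ∃ x : ZMod l, x ^ 3 = 2) ∧
        ∃ K : IntermediateField ℚ L, Nonempty ((L ≃ₐ[K] L) ≃* G)) ∧
    ∀ (L : Type) [Field L] [NumberField L] [IsGalois ℚ L], (∃ m, Module.finrank ℚ L = 2 ^ m) →
      (∀ l : ℕ, l.Prime → (l : ℤ) ∣ discr L → l ≠ 2 ∧ (l = 3 ∨ ¬ ∃ x : ZMod l, x ^ 3 = 2)) →
      ∀ (K : Type) [Field K] [NumberField K] (i : K →+* L) (W : WeierstrassCurve K),
        (∃ C : VariableChange L, C • W.map i = ⟨0, 0, 1, 0, 0⟩) →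
        W.IsElliptic ∧
        Finite W.toAffine.Point ∧
        ∃ (U : Set ℂ) (F : ℂ → ℂ),
          IsOpen U ∧ IsConnected U ∧ {z : ℂ | (3 / 2 : ℝ) < z.re} ⊆ U ∧ (1 : ℂ) ∈ U ∧
          AnalyticOnNhd ℂ F U ∧
          (∀ z : ℂ, (3 / 2 : ℝ) < z.re → F z = W.LSeries z) ∧
          F 1 ≠ 0 ∧
          (∀ r : ℕ, r < Module.finrank ℤ W.toAffine.Point → iteratedDeriv r F 1 = 0) ∧
          iteratedDeriv (Module.finrank ℤ W.toAffine.Point) F 1 ≠ 0 := by
  refine ⟨fun N n G _ hG => Pool.Agent.helper5.Tow.Ex.exists_silent_galois N n G hG, ?_⟩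
  intro L _ _ _ hL hsil K _ _ i W hW
  obtain ⟨C, hC⟩ := hW
  letI : Algebra K L := i.toAlgebra
  obtain ⟨hΔ, hfin, U, F, hU1, hU2, hU3, hU4, hF, hFL, hF1⟩ :=
    Pool.Agent.helper76.Tow.tower_all_tw (K := K) (L := L) hL hsil W (C := C) hC
  have hrank : Module.finrank ℤ W.toAffine.Point = 0 := by
    refine Module.IsTorsion.finrank_eq_zero fun {P} => ?_
    obtain ⟨k, hk, hkP⟩ := isOfFinAddOrder_iff_nsmul_eq_zero.1 (isOfFinAddOrder_of_finite P)
    refine ⟨⟨(k : ℤ), mem_nonZeroDivisors_of_ne_zero (by exact_mod_cast hk.ne')⟩, ?_⟩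
    change (k : ℤ) • P = 0
    rw [natCast_zsmul]
    exact hkP
  refine ⟨?_, hfin, U, F, hU1, hU2, hU3, hU4, hF, hFL, hF1, ?_, ?_⟩
  · rw [WeierstrassCurve.isElliptic_iff, isUnit_iff_ne_zero]
    exact hΔ
  · intro r hr
    rw [hrank] at hr
    exact absurd hr (Nat.not_lt_zero r)
  · rw [hrank, iteratedDeriv_zero]
    exact hF1

end Pool.Agent.Results.MP_32c55d_nt.SilentTowerCurves
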