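import Mathlib
import Pool.Agent.helper10.PI.Fin.C

set_option autoImplicit false

open scoped Classical
open NumberField WeierstrassCurve

namespace Pool.Agent.Results.MP_32c55d_nt.SilentTowersP

/-- The prime `P` of `L` is ramified over `k`: it occurs at least twice in the factorization of the
ideal generated by the prime of `k` below `P`. -/
def Ramified (k : Type) {L : Type} [Field k] [Field L] [Algebra k L] (P : Ideal (𝓞 L)) : Prop :=
  (P.comap (algebraMap (𝓞 k) (𝓞 L))).map (algebraMap (𝓞 k) (𝓞 L)) ≤ P ^ 2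

/-- The number of points of `y ^ 2 + y = x ^ 3` over the residue field of `P`, including the point
at infinity. -/
noncomputable def pointCount {L : Type} [Field L] (P : Ideal (𝓞 L)) : ℕ :=
  1 + Nat.card {z : (𝓞 L ⧸ P) × (𝓞 L ⧸ P) // z.2 ^ 2 + z.2 = z.1 ^ 3}

/-- The extension `L / k` has `p`-power degree, and for each nonzero prime `P` of `L` ramified over
`k` neither does `P` contain `p`, nor does `p` divide the number of points of `y ^ 2 + y = x ^ 3`
over the residue field of `P`. -/
def Silent (p : ℕ) (k L : Type) [Field k] [Field L] [Algebra k L] : Prop :=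
  (∃ m, Module.finrank k L = p ^ m) ∧
  ∀ P : Ideal (𝓞 L), P.IsPrime → P ≠ ⊥ → Ramified k P → (p : 𝓞 L) ∉ P ∧ ¬ p ∣ pointCount P

/-- The `L`-series of `W` (Mathlib's) continues analytically from `Re s > 3 / 2` to a connected
open set containing `1`, where it vanishes to order exactly `r`. -/
def OrderAtOne {K : Type} [Field K] [NumberField K] (W : WeierstrassCurve K) (r : ℕ) : Prop :=
  ∃ (U : Set ℂ) (F : ℂ → ℂ), IsOpen U ∧ IsConnected U ∧ {z : ℂ | (3 / 2 : ℝ) < z.re} ⊆ U ∧
    (1 : ℂ) ∈ U ∧ AnalyticOnNhd ℂ F U ∧ (∀ z : ℂ, (3 / 2 : ℝ) < z.re → F z = W.LSeries z) ∧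
    (∀ i < r, iteratedDeriv i F 1 = 0) ∧ iteratedDeriv r F 1 ≠ 0

/-- Let `k = ℚ(√-3)` and let `p ≥ 5` be a prime number.

* Every finite `p`-group is the Galois group of `L / K` for a silent Galois extension `L / k` and a
  field `k ⊆ K ⊆ L`, where all ramified primes of `L` have norm beyond any given bound.
* For every silent Galois extension `L / k`, every number field `K` with an embedding into `L` and
  every Weierstrass curve `W` over `K` which becomes isomorphic over `L` to `y ^ 2 + y = x ^ 3`, the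
  rank conjecture holds for `W` over `K`: `W(K)` is finite (of order prime to `p`), of rank `0`,
  and the `L`-series continues to `1` and does not vanish there. -/
theorem result (k : Type) [Field k] [NumberField k] (hk : Module.finrank ℚ k = 2) (t : 𝓞 k)
    (ht : t ^ 2 = -3) (p : ℕ) (hp : p.Prime) (h5 : 5 ≤ p) :
    (∀ (N n : ℕ) (G : Type) [Group G], Nat.card G = p ^ n →
      ∃ (L : Type) (_ : Field L) (_ : NumberField L) (_ : Algebra k L), IsGalois k L ∧
        Silent p k L ∧
        (∀ P : Ideal (𝓞 L), P.IsPrime → P ≠ ⊥ → Ramified k P → N < Ideal.absNorm P) ∧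
        ∃ K : IntermediateField k L, Nonempty ((L ≃ₐ[K] L) ≃* G)) ∧
    ∀ (L : Type) [Field L] [NumberField L] [Algebra k L] [IsGalois k L], Silent p k L →
      ∀ (K : Type) [Field K] [NumberField K] (i : K →+* L) (W : WeierstrassCurve K),
        (∃ C : VariableChange L, C • W.map i = ⟨0, 0, 1, 0, 0⟩) →
        W.IsElliptic ∧ Finite W.toAffine.Point ∧ ¬ p ∣ Nat.card W.toAffine.Point ∧
        Module.finrank ℤ W.toAffine.Point = 0 ∧ OrderAtOne W 0 := by
  refine ⟨fun N n G _ hG => ?_, ?_⟩
  · obtain ⟨L, i1, i2, i3, i4, hL, hP, hK⟩ :=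
      Pool.Agent.helper10.PI.exists_k hp h5 ht hk N n G hG
    exact ⟨L, i1, i2, i3, i4, ⟨hL, fun P h1 h2 h3 => (hP P h1 h2 h3).2⟩,
      fun P h1 h2 h3 => (hP P h1 h2 h3).1, hK⟩
  · intro L _ _ _ _ hL K _ _ i W hW
    obtain ⟨C, hC⟩ := hW
    obtain ⟨hΔ, hfin, h3, U, F, hU1, hU2, hU3, hU4, hF, hFL, hF1⟩ :=
      Pool.Agent.helper10.PI.all_k5 hp h5 ht hk (L := L) hL.1 hL.2 i W (C := C) hC
    have hrank : Module.finrank ℤ W.toAffine.Point = 0 := by
      refine Module.IsTorsion.finrank_eq_zero fun {P} => ?_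
      obtain ⟨k, hk, hkP⟩ := isOfFinAddOrder_iff_nsmul_eq_zero.1 (isOfFinAddOrder_of_finite P)
      refine ⟨⟨(k : ℤ), mem_nonZeroDivisors_of_ne_zero (by exact_mod_cast hk.ne')⟩, ?_⟩
      change (k : ℤ) • P = 0
      rw [natCast_zsmul]
      exact hkP
    refine ⟨?_, hfin, h3, hrank, U, F, hU1, hU2, hU3, hU4, hF, hFL, ?_, ?_⟩
    · rw [WeierstrassCurve.isElliptic_iff, isUnit_iff_ne_zero]
      exact hΔ
    · intro r hr
      exact absurd hr (Nat.not_lt_zero r)
    · rw [iteratedDeriv_zero]
      exact hF1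

end Pool.Agent.Results.MP_32c55d_nt.SilentTowersP
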