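import Mathlib
import Pool.Agent.helper10.PW.Fin.D
import Pool.Agent.helper10.PW.Fin.Inf

set_option autoImplicit false

open scoped Classical
open NumberField WeierstrassCurve

namespace Pool.Agent.Results.MP_32c55d_nt.SilentTwistTowers

/-- The prime `P` of `L` is ramified over `k`: it occurs at least twice in the factorization of the
ideal generated by the prime of `k` below `P`. -/
def Ramified (k : Type) {L : Type} [Field k] [Field L] [Algebra k L] (P : Ideal (𝓞 L)) : Prop :=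
  (P.comap (algebraMap (𝓞 k) (𝓞 L))).map (algebraMap (𝓞 k) (𝓞 L)) ≤ P ^ 2

/-- The number of points of `y ^ 2 = x ^ 3 + D` over the residue field of `P`, including the point
at infinity. -/
noncomputable def pointCount {L : Type} [Field L] (D : 𝓞 L) (P : Ideal (𝓞 L)) : ℕ :=
  1 + Nat.card {z : (𝓞 L ⧸ P) × (𝓞 L ⧸ P) // z.2 ^ 2 = z.1 ^ 3 + Ideal.Quotient.mk P D}

/-- The extension `L / k` has `p`-power degree, and no nonzero prime `P` of `L` ramified over `k`
contains `p`; moreover `P` contains `D`, or `p` does not divide the number of points of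
`y ^ 2 = x ^ 3 + D` over the residue field of `P`. -/
def Silent (p : ℕ) (k L : Type) [Field k] [Field L] [Algebra k L] (D : 𝓞 k) : Prop :=
  (∃ m, Module.finrank k L = p ^ m) ∧
  ∀ P : Ideal (𝓞 L), P.IsPrime → P ≠ ⊥ → Ramified k P →
    (p : 𝓞 L) ∉ P ∧ (algebraMap (𝓞 k) (𝓞 L) D ∈ P ∨
      ¬ p ∣ pointCount (algebraMap (𝓞 k) (𝓞 L) D) P)

/-- `D` is not divisible by the sixth power of a prime, and is not `t ^ 3 * c` with
`c ≡ ±1` modulo `3 * t`: the curve `y ^ 2 = x ^ 3 + D` has bad reduction at `t`. -/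
def Admissible {k : Type} [Field k] (t D : 𝓞 k) : Prop :=
  (∀ P : Ideal (𝓞 k), P.IsPrime → P ≠ ⊥ → D ∉ P ^ 6) ∧
  ∀ c : 𝓞 k, D = t ^ 3 * c → ¬ 3 * t ∣ c - 1 ∧ ¬ 3 * t ∣ c + 1

/-- The `L`-series of `W` (Mathlib's) continues analytically from `Re s > 3 / 2` to an open set
which contains the interval `[1, ∞)`, with a nonzero value at `1`. -/
def NonzeroAtOne {K : Type} [Field K] [NumberField K] (W : WeierstrassCurve K) : Prop :=
  ∃ (U : Set ℂ) (F : ℂ → ℂ), IsOpen U ∧ {z : ℂ | (3 / 2 : ℝ) < z.re} ⊆ U ∧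
    (∀ x : ℝ, 1 ≤ x → (x : ℂ) ∈ U) ∧ AnalyticOnNhd ℂ F U ∧
    (∀ z : ℂ, (3 / 2 : ℝ) < z.re → F z = W.LSeries z) ∧ F 1 ≠ 0

/-- The `L`-series of `W` (Mathlib's) continues analytically from `Re s > 3 / 2` to a connected
open set containing `1`, where it vanishes to order exactly `r`. -/
def OrderAtOne {K : Type} [Field K] [NumberField K] (W : WeierstrassCurve K) (r : ℕ) : Prop :=
  ∃ (U : Set ℂ) (F : ℂ → ℂ), IsOpen U ∧ IsConnected U ∧ {z : ℂ | (3 / 2 : ℝ) < z.re} ⊆ U ∧
    (1 : ℂ) ∈ U ∧ AnalyticOnNhd ℂ F U ∧ (∀ z : ℂ, (3 / 2 : ℝ) < z.re → F z = W.LSeries z) ∧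
    (∀ i < r, iteratedDeriv i F 1 = 0) ∧ iteratedDeriv r F 1 ≠ 0

/-- The squarefree integers `d ≡ 1` modulo `4` such that `2` is not a cube modulo any prime number
dividing `d` (for example `1`, `-7`, `13`, `-19`, `37`). -/
def Family : Set ℤ :=
  {d | Squarefree d ∧ d % 4 = 1 ∧ ∀ l : ℕ, l.Prime → (l : ℤ) ∣ d → ¬ ∃ x : ZMod l, x ^ 3 = 2}

/-- Let `k = ℚ(√-3)`.

Let `D` be admissible and let `L(s)`, the `L`-series over `k` of the curve `y ^ 2 = x ^ 3 + D`,
satisfy `L(1) ≠ 0`.  There is a finite set `S` of prime numbers, which depends only on `D`, such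
that for every prime number `p` outside `S`, with `p ≡ 2` modulo `3` or `p` not dividing the
number of points of the curve modulo the primes of `k` above `p`, the following holds.

* Every finite `p`-group is the Galois group of `L / K` for a silent Galois extension `L / k` and a
  field `k ⊆ K ⊆ L`, where all ramified primes of `L` have norm beyond any given bound.
* For every silent Galois extension `L / k`, every number field `K` with an embedding into `L` and
  every Weierstrass curve `W` over `K` which becomes isomorphic over `L` to `y ^ 2 = x ^ 3 + D`, the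
  rank conjecture holds for `W` over `K`: `W(K)` is finite (of order prime to `p`), of rank `0`,
  and the `L`-series continues to `1` and does not vanish there.

The hypotheses on `D` hold for `D = 16 * d ^ 3` with `d` in the infinite set `Family`. -/
theorem result (k : Type) [Field k] [NumberField k] (hk : Module.finrank ℚ k = 2) (t : 𝓞 k)
    (ht : t ^ 2 = -3) :
    (∀ D : 𝓞 k, Admissible t D → NonzeroAtOne (⟨0, 0, 0, 0, (D : k)⟩ : WeierstrassCurve k) →
      ∃ S : Finset ℕ, ∀ p : ℕ, p.Prime → p ∉ S →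
        (p % 3 = 1 → ∀ P : Ideal (𝓞 k), P.IsPrime → (p : 𝓞 k) ∈ P → ¬ p ∣ pointCount D P) →
        (∀ (N n : ℕ) (G : Type) [Group G], Nat.card G = p ^ n →
          ∃ (L : Type) (_ : Field L) (_ : NumberField L) (_ : Algebra k L), IsGalois k L ∧
            Silent p k L D ∧
            (∀ P : Ideal (𝓞 L), P.IsPrime → P ≠ ⊥ → Ramified k P → N < Ideal.absNorm P) ∧
            ∃ K : IntermediateField k L, Nonempty ((L ≃ₐ[K] L) ≃* G)) ∧
        ∀ (L : Type) [Field L] [NumberField L] [Algebra k L] [IsGalois k L], Silent p k L D →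
          ∀ (K : Type) [Field K] [NumberField K] (i : K →+* L) (W : WeierstrassCurve K),
            (∃ C : VariableChange L, C • W.map i = ⟨0, 0, 0, 0, algebraMap k L D⟩) →
            W.IsElliptic ∧ Finite W.toAffine.Point ∧ ¬ p ∣ Nat.card W.toAffine.Point ∧
            Module.finrank ℤ W.toAffine.Point = 0 ∧ OrderAtOne W 0) ∧
    Family.Infinite ∧ ∀ d ∈ Family,
      Admissible t (16 * (d : 𝓞 k) ^ 3) ∧
      NonzeroAtOne (⟨0, 0, 0, 0, ((16 * (d : 𝓞 k) ^ 3 : 𝓞 k) : k)⟩ : WeierstrassCurve k) := by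
  refine ⟨fun D hD hNV => ?_, Pool.Agent.helper10.PW.infinite_family, ?_⟩
  · obtain ⟨hG, ν, ε, hT, S, hS⟩ :=
      Pool.Agent.helper10.PW.exists_admP_k ht hk hD.1 hD.2 hNV
    refine ⟨S ∪ {2, 3}, fun p hp hpS hreg => ?_⟩
    have hA := hS p hp (fun h => hpS (Finset.mem_union_left _ h)) hreg
    refine ⟨fun N n G _ hG' => ?_, ?_⟩
    · obtain ⟨L, i1, i2, i3, i4, hL, hP, hK⟩ :=
        Pool.Agent.helper10.PW.exists_kW ht hk hG hT hp hA.five N n G hG'
      refine ⟨L, i1, i2, i3, i4, ⟨hL, fun P h1 h2 h3 => ?_⟩,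
        fun P h1 h2 h3 => (hP P h1 h2 h3).1, hK⟩
      obtain ⟨-, h4, h5⟩ := hP P h1 h2 h3
      exact ⟨h4, or_iff_not_imp_left.2 h5⟩
    · intro L _ _ _ _ hL K _ _ i W hW
      obtain ⟨C, hC⟩ := hW
      obtain ⟨hΔ, hfin, h3, U, F, hU1, hU2, hU3, hU4, hF, hFL, hF1⟩ :=
        Pool.Agent.helper10.PW.all_kW ht hk hG hT hp hA (L := L) hL.1
          (fun P h1 h2 h3 => ⟨(hL.2 P h1 h2 h3).1, or_iff_not_imp_left.1 (hL.2 P h1 h2 h3).2⟩)
          i W (C := C) hC
      have hrank : Module.finrank ℤ W.toAffine.Point = 0 := by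
        refine Module.IsTorsion.finrank_eq_zero fun {P} => ?_
        obtain ⟨k, hk, hkP⟩ := isOfFinAddOrder_iff_nsmul_eq_zero.1 (isOfFinAddOrder_of_finite P)
        refine ⟨⟨(k : ℤ), mem_nonZeroDivisors_of_ne_zero (by exact_mod_cast hk.ne')⟩, ?_⟩
        change (k : ℤ) • P = 0
        rw [natCast_zsmul]
        exact hkP
      refine ⟨?_, hfin, h3, hrank, U, F, hU1, hU2, hU3, hU4, hF, hFL, ?_, ?_⟩
      · rw [WeierstrassCurve.isElliptic_iff, isUnit_iff_ne_zero]
        exact hΔ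
      · intro r hr
        exact absurd hr (Nat.not_lt_zero r)
      · rw [iteratedDeriv_zero]
        exact hF1
  · rintro d ⟨hs, hd, hc⟩
    have hG := Pool.Agent.helper10.PW.goodD_family hs hd
      (Pool.Agent.helper10.PW.three_not_dvd hc)
    have he : Pool.Agent.helper10.PW.e0 ht hk (16 * (d : Pool.Agent.helper77.BSD.EA) ^ 3) =
        16 * (d : 𝓞 k) ^ 3 := by
      rw [map_mul, map_pow, map_intCast, map_ofNat]
    have hadm := Pool.Agent.helper10.PW.adm_of_goodD ht hk hG
    rw [he] at hadm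
    refine ⟨hadm, Pool.Agent.helper10.PW.NV_k (Pool.Agent.helper10.PT.ekP ht hk) hG ?_
      (Pool.Agent.helper10.PW.NV_family hd hc)⟩
    rw [← he, Pool.Agent.helper10.PW.e0_coe]

end Pool.Agent.Results.MP_32c55d_nt.SilentTwistTowers
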